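import Mathlib
import Pool.Agent.H87.CS.Targets

set_option autoImplicit false

namespace Pool.Agent.H34.CS

open Set Topology Filter TopologicalSpace

section general

variable {X : Type*} [TopologicalSpace X] [CompactSpace X] [T2Space X]
  [TotallyDisconnectedSpace X]

theorem exists_clopen_sep {x y : X} (h : x ≠ y) : ∃ U : Clopens X, x ∈ U ∧ y ∉ U := by
  have hb := (isTopologicalBasis_isClopen (X := X))
  obtain ⟨V, hV, hxV, hVs⟩ := hb.exists_subset_of_mem_open (a := x) (u := {y}ᶜ) h
    isOpen_compl_singleton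
  exact ⟨⟨V, hV⟩, hxV, fun hy => hVs hy rfl⟩

theorem split (hperf : ∀ U : Set X, IsOpen U → U.Nonempty → ∃ x ∈ U, ∃ y ∈ U, x ≠ y)
    (B C : Clopens X) :
    ∃ L R : Clopens X, (C : Set X).Nonempty →
      (L : Set X).Nonempty ∧ (R : Set X).Nonempty ∧ (∀ x, x ∈ C ↔ x ∈ L ∨ x ∈ R) ∧
      (∀ x, x ∈ L → x ∉ R) ∧ ((∀ x ∈ L, x ∈ B) ∨ (∀ x ∈ L, x ∉ B)) ∧
      ((∀ x ∈ R, x ∈ B) ∨ (∀ x ∈ R, x ∉ B)) := by
  by_cases h1 : ((C ⊓ B : Clopens X) : Set X).Nonempty ∧ ((C \ B : Clopens X) : Set X).Nonempty
  · refine ⟨C ⊓ B, C \ B, fun _ => ⟨h1.1, h1.2, ?_, ?_, ?_, ?_⟩⟩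
    · intro x
      constructor
      · intro hx
        by_cases hb : x ∈ B
        · exact Or.inl ⟨hx, hb⟩
        · exact Or.inr ⟨hx, hb⟩
      · rintro (hx | hx)
        · exact hx.1
        · exact hx.1
    · intro x hx hx'
      exact hx'.2 hx.2
    · left; intro x hx; exact hx.2
    · right; intro x hx; exact hx.2
  · by_cases hC : (C : Set X).Nonempty
    · obtain ⟨x, hx, y, hy, hxy⟩ := hperf C C.isOpen hC
      obtain ⟨U, hxU, hyU⟩ := exists_clopen_sep hxy
      have h2 : (∀ x ∈ C, x ∈ B) ∨ (∀ x ∈ C, x ∉ B) := by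
        by_contra hc
        push Not at hc
        obtain ⟨⟨a, ha, ha'⟩, ⟨b, hb, hb'⟩⟩ := hc
        exact h1 ⟨⟨b, hb, hb'⟩, ⟨a, ha, ha'⟩⟩
      refine ⟨C ⊓ U, C \ U, fun _ => ⟨⟨x, hx, hxU⟩, ⟨y, hy, hyU⟩, ?_, ?_, ?_, ?_⟩⟩
      · intro x
        constructor
        · intro hx
          by_cases hb : x ∈ U
          · exact Or.inl ⟨hx, hb⟩
          · exact Or.inr ⟨hx, hb⟩
        · rintro (hx | hx)
          · exact hx.1
          · exact hx.1
      · intro x hx hx'
        exact hx'.2 hx.2
      · rcases h2 with h2 | h2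
        · left; intro x hx; exact h2 x hx.1
        · right; intro x hx; exact h2 x hx.1
      · rcases h2 with h2 | h2
        · left; intro x hx; exact h2 x hx.1
        · right; intro x hx; exact h2 x hx.1
    · exact ⟨⊥, ⊥, fun h => absurd h hC⟩

theorem cantor_homeo [SecondCountableTopology X] [Nonempty X]
    (hperf : ∀ U : Set X, IsOpen U → U.Nonempty → ∃ x ∈ U, ∃ y ∈ U, x ≠ y) :
    Nonempty (X ≃ₜ (ℕ → Bool)) := by
  classical
  have : Countable (Clopens X) := Clopens.countable_iff_secondCountable.2 inferInstance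
  obtain ⟨B, hB⟩ := exists_surjective_nat (Clopens X)
  choose L R hLR using fun (n : ℕ) (C : Clopens X) => split hperf (B n) C
  -- states
  let st : ℕ → X → Clopens X := fun n y => Nat.rec (motive := fun _ => Clopens X) ⊤
    (fun n C => if y ∈ L n C then L n C else R n C) n
  have st0 : ∀ y, st 0 y = ⊤ := fun y => rfl
  have sts : ∀ n y, st (n + 1) y = if y ∈ L n (st n y) then L n (st n y) else R n (st n y) :=
    fun n y => rfl
  have hmem : ∀ n y, y ∈ st n y := by
    intro n y
    induction n with
    | zero => rw [st0]; trivial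
    | succ n ih =>
      rw [sts]
      split_ifs with h
      · exact h
      · have := (hLR n (st n y) ⟨y, ih⟩).2.2.1 y
        exact (this.1 ih).resolve_left h
  let g : X → ℕ → Bool := fun y n => decide (y ∈ L n (st n y))
  have gdef : ∀ y n, g y n = decide (y ∈ L n (st n y)) := fun _ _ => rfl
  -- agreement of codes gives equality of states
  have hcode : ∀ n y z, (∀ m < n, g z m = g y m) → st n z = st n y := by
    intro n
    induction n with
    | zero => intro y z _; rfl
    | succ n ih =>
      intro y z h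
      have h1 := ih y z (fun m hm => h m (by omega))
      have h2 := h n (by omega)
      rw [gdef, gdef, h1, decide_eq_decide] at h2
      rw [sts, sts, h1]
      simp only [h2]
  -- points of a state have the same code
  have hstate : ∀ n y z, z ∈ st n y → ∀ m < n, g z m = g y m := by
    intro n
    induction n with
    | zero => intro y z _ m hm; omega
    | succ n ih =>
      intro y z hz
      have hsub : z ∈ st n y := by
        rw [sts] at hz
        have := (hLR n (st n y) ⟨y, hmem n y⟩).2.2.1 z
        split_ifs at hz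
        · exact this.2 (Or.inl hz)
        · exact this.2 (Or.inr hz)
      have h1 := ih y z hsub
      have h2 := hcode n y z h1
      intro m hm
      rcases Nat.lt_succ_iff_lt_or_eq.1 hm with hm | rfl
      · exact h1 m hm
      · rw [gdef, gdef, h2, decide_eq_decide]
        rw [sts] at hz
        have := (hLR m (st m y) ⟨y, hmem m y⟩).2.2.2.1
        split_ifs at hz with hy
        · exact ⟨fun _ => hy, fun _ => hz⟩
        · exact ⟨fun h => absurd hz (this z h), fun h => absurd h hy⟩
  have hcont : Continuous g := by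
    refine continuous_pi fun n => ?_
    refine IsLocallyConstant.continuous ?_
    rw [IsLocallyConstant.iff_exists_open]
    intro y
    exact ⟨st (n + 1) y, (st (n + 1) y).isOpen, hmem (n + 1) y, fun z hz =>
      hstate (n + 1) y z hz n (by omega)⟩
  have hinj : Function.Injective g := by
    intro y z hyz
    by_contra hne
    obtain ⟨U, hyU, hzU⟩ := exists_clopen_sep hne
    obtain ⟨n, rfl⟩ := hB U
    have h1 : z ∈ st (n + 1) y := by
      rw [← hcode (n + 1) y z (fun m _ => by rw [hyz])]
      exact hmem (n + 1) z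
    have h2 : y ∈ st (n + 1) y := hmem (n + 1) y
    rw [sts] at h1 h2
    have h3 := (hLR n (st n y) ⟨y, hmem n y⟩).2.2.2.2
    split_ifs at h1 h2 with h
    · rcases h3.1 with h4 | h4
      · exact hzU (h4 z h1)
      · exact h4 y h2 hyU
    · rcases h3.2 with h4 | h4
      · exact hzU (h4 z h1)
      · exact h4 y h2 hyU
  have hfin : ∀ (x : ℕ → Bool) (n : ℕ), ∃ y, ∀ m < n, g y m = x m := by
    intro x n
    induction n with
    | zero => exact ⟨Classical.arbitrary X, fun m hm => by omega⟩
    | succ n ih =>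
      obtain ⟨y, hy⟩ := ih
      have H := hLR n (st n y) ⟨y, hmem n y⟩
      obtain ⟨z, hz1, hz2⟩ : ∃ z, z ∈ st n y ∧ decide (z ∈ L n (st n y)) = x n := by
        cases hxn : x n with
        | true =>
          obtain ⟨z, hz⟩ := H.1
          exact ⟨z, (H.2.2.1 z).2 (Or.inl hz), by simpa using hz⟩
        | false =>
          obtain ⟨z, hz⟩ := H.2.1
          refine ⟨z, (H.2.2.1 z).2 (Or.inr hz), ?_⟩
          have : z ∉ L n (st n y) := fun h => H.2.2.2.1 z h hz
          simpa using this
      have h1 := hstate n y z hz1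
      have h2 := hcode n y z h1
      refine ⟨z, fun m hm => ?_⟩
      rcases Nat.lt_succ_iff_lt_or_eq.1 hm with hm | rfl
      · rw [h1 m hm, hy m hm]
      · rw [gdef, h2, hz2]
  have hsurj : Function.Surjective g := by
    intro x
    let t : ℕ → Set X := fun n => {y | ∀ m < n, g y m = x m}
    have hcl : ∀ i, IsClosed (t i) := by
      intro i
      have : t i = ⋂ m, ⋂ (_ : m < i), {y | g y m = x m} := by
        ext y; simp [t]
      rw [this]
      refine isClosed_iInter fun m => isClosed_iInter fun _ => ?_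
      exact isClosed_eq ((continuous_apply m).comp hcont) continuous_const
    obtain ⟨y, hy⟩ := IsCompact.nonempty_iInter_of_sequence_nonempty_isCompact_isClosed t
      (fun i y hy m hm => hy m (by omega)) (fun i => hfin x i) (hcl 0).isCompact hcl
    refine ⟨y, funext fun n => ?_⟩
    rw [mem_iInter] at hy
    exact hy (n + 1) n (by omega)
  exact ⟨hcont.homeoOfEquivCompactToT2 (f := Equiv.ofBijective g ⟨hinj, hsurj⟩)⟩

end general

theorem bro : Pool.Agent.H87.CS.T_bro := by
  intro K hne hK htd hperf
  have : CompactSpace K := isCompact_iff_compactSpace.1 hK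
  have : Nonempty K := hne.to_subtype
  have : TotallyDisconnectedSpace K := by
    rwa [totallyDisconnectedSpace_subtype_iff]
  refine cantor_homeo ?_
  intro U hU ⟨x, hx⟩
  obtain ⟨O, hO, rfl⟩ := isOpen_induced_iff.1 hU
  have h1 := hperf x.1 x.2
  rw [accPt_iff_nhds] at h1
  obtain ⟨y, hy, hyx⟩ := h1 O (hO.mem_nhds hx)
  exact ⟨x, hx, ⟨y, hy.2⟩, hy.1, fun h => hyx (by rw [h])⟩

end Pool.Agent.H34.CS
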