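import Mathlib
import Pool.Agent.H87.CS.Targets

set_option autoImplicit false

namespace Pool.Agent.H34.CS

open Set Topology Filter Metric
open Pool.Agent.H87.CS (V2 T_cell T_blk)

theorem blk_step (hcell : T_cell) (Q O : Set V2) (hQ : IsCompact Q) (hO : IsOpen O)
    (hQO : Q ⊆ O) (ε : ℝ) (hε : 0 < ε) :
    ∃ Q' O' : Set V2, IsCompact Q' ∧ IsOpen O' ∧ Q' ⊆ O' ∧ closure O' ⊆ O ∧
      IsCompact (closure O') ∧
      (∀ p : MvPolynomial (Fin 2) ℂ, (∃ x ∈ Q, MvPolynomial.eval x p = 0) →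
        ∃ x ∈ Q', MvPolynomial.eval x p = 0) ∧
      ∀ A : Set V2, A ⊆ O' → IsPreconnected A → ∀ x ∈ A, ∀ y ∈ A, dist x y ≤ ε := by
  obtain ⟨n, C, hC, hCO, hCd, hCdis, hCp⟩ := hcell Q O hQ hO hQO (ε / 3) (by positivity)
  have e1 : ∀ᶠ δ : ℝ in 𝓝[>] 0, ∀ i j, i ≠ j → Disjoint (thickening δ (C i)) (thickening δ (C j)) := by
    rw [eventually_all]
    intro i
    rw [eventually_all]
    intro j
    by_cases hij : i = j
    · exact Eventually.of_forall fun δ h => absurd hij h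
    · obtain ⟨δ₀, hδ₀, hd⟩ := (hCdis i j hij).exists_thickenings (hC i) (hC j).isClosed
      filter_upwards [Ioo_mem_nhdsGT hδ₀] with δ hδ _
      exact hd.mono (thickening_mono hδ.2.le _) (thickening_mono hδ.2.le _)
  have e2 : ∀ᶠ δ : ℝ in 𝓝[>] 0, ∀ i, cthickening δ (C i) ⊆ O := by
    rw [eventually_all]
    intro i
    obtain ⟨δ₀, hδ₀, hd⟩ := (hC i).exists_cthickening_subset_open hO (hCO i)
    filter_upwards [Ioo_mem_nhdsGT hδ₀] with δ hδ
    exact (cthickening_mono hδ.2.le _).trans hd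
  have e3 : ∀ᶠ δ : ℝ in 𝓝[>] 0, 0 < δ ∧ δ < ε / 3 :=
    Ioo_mem_nhdsGT (by positivity)
  obtain ⟨δ, h1, h2, h3, h4⟩ := (e1.and (e2.and e3)).exists
  have hsub : closure (⋃ i, thickening δ (C i)) ⊆ ⋃ i, cthickening δ (C i) := by
    rw [closure_iUnion_of_finite]
    exact iUnion_mono fun i => closure_thickening_subset_cthickening _ _
  refine ⟨⋃ i, C i, ⋃ i, thickening δ (C i), isCompact_iUnion hC,
    isOpen_iUnion fun i => isOpen_thickening, iUnion_mono fun i => self_subset_thickening h3 _,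
    hsub.trans (iUnion_subset h2), ?_, ?_, ?_⟩
  · exact (isCompact_iUnion fun i => (hC i).cthickening).of_isClosed_subset isClosed_closure hsub
  · intro p hp
    obtain ⟨i, y, hy, hpy⟩ := hCp p hp
    exact ⟨y, mem_iUnion.2 ⟨i, hy⟩, hpy⟩
  · intro A hA hAc x hx y hy
    obtain ⟨i, hi⟩ := mem_iUnion.1 (hA hx)
    have hAi : A ⊆ thickening δ (C i) := by
      refine hAc.subset_left_of_subset_union (v := ⋃ j, ⋃ (_ : j ≠ i), thickening δ (C j))
        isOpen_thickening (isOpen_iUnion fun j => isOpen_iUnion fun _ => isOpen_thickening) ?_ ?_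
        ⟨x, hx, hi⟩
      · rw [Set.disjoint_left]
        intro z hz hz'
        simp only [mem_iUnion] at hz'
        obtain ⟨j, hj, hzj⟩ := hz'
        exact Set.disjoint_left.1 (h1 i j (Ne.symm hj)) hz hzj
      · intro z hz
        obtain ⟨j, hj⟩ := mem_iUnion.1 (hA hz)
        by_cases hji : j = i
        · left; rw [← hji]; exact hj
        · right
          simp only [mem_iUnion]
          exact ⟨j, hji, hj⟩
    obtain ⟨x', hx', hxx⟩ := mem_thickening_iff.1 (hAi hx)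
    obtain ⟨y', hy', hyy⟩ := mem_thickening_iff.1 (hAi hy)
    have h5 := hCd i x' hx' y' hy'
    have h6 : dist x y ≤ dist x x' + dist x' y' + dist y' y := dist_triangle4 _ _ _ _
    rw [dist_comm y' y] at h6
    linarith

theorem blk (hcell : T_cell) : T_blk := by
  intro T O hT hO hTO
  let S := {q : Set V2 × Set V2 // IsCompact q.1 ∧ IsOpen q.2 ∧ q.1 ⊆ q.2}
  have step : ∀ (n : ℕ) (s : S), ∃ s' : S, closure s'.1.2 ⊆ s.1.2 ∧ IsCompact (closure s'.1.2) ∧
      (∀ p : MvPolynomial (Fin 2) ℂ, (∃ x ∈ s.1.1, MvPolynomial.eval x p = 0) →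
        ∃ x ∈ s'.1.1, MvPolynomial.eval x p = 0) ∧
      ∀ A : Set V2, A ⊆ s'.1.2 → IsPreconnected A → ∀ x ∈ A, ∀ y ∈ A,
        dist x y ≤ 1 / ((n : ℝ) + 1) := by
    rintro n ⟨⟨Q, O⟩, hQ, hO, hQO⟩
    obtain ⟨Q', O', h1, h2, h3, h4, h5, h6, h7⟩ := blk_step hcell Q O hQ hO hQO
      (1 / ((n : ℝ) + 1)) (by positivity)
    exact ⟨⟨⟨Q', O'⟩, h1, h2, h3⟩, h4, h5, h6, h7⟩
  choose nx hnx using step
  let sq : ℕ → S := fun n => Nat.rec (motive := fun _ => S) ⟨(T, O), hT, hO, hTO⟩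
    (fun n s => nx n s) n
  have sq0 : sq 0 = ⟨(T, O), hT, hO, hTO⟩ := rfl
  have sqs : ∀ n, sq (n + 1) = nx n (sq n) := fun n => rfl
  have hcl : ∀ n, closure (sq (n + 1)).1.2 ⊆ (sq n).1.2 := fun n => by
    rw [sqs]; exact (hnx n (sq n)).1
  have hco : ∀ n, IsCompact (closure (sq (n + 1)).1.2) := fun n => by
    rw [sqs]; exact (hnx n (sq n)).2.1
  have hp : ∀ (p : MvPolynomial (Fin 2) ℂ), (∃ x ∈ T, MvPolynomial.eval x p = 0) →
      ∀ n, ∃ x ∈ (sq n).1.1, MvPolynomial.eval x p = 0 := by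
    intro p hp n
    induction n with
    | zero => exact hp
    | succ n ih => rw [sqs]; exact (hnx n (sq n)).2.2.1 p ih
  have hd : ∀ n (A : Set V2), A ⊆ (sq (n + 1)).1.2 → IsPreconnected A → ∀ x ∈ A, ∀ y ∈ A,
      dist x y ≤ 1 / ((n : ℝ) + 1) := fun n => by
    rw [sqs]; exact (hnx n (sq n)).2.2.2
  have hmono : ∀ n, closure (sq (n + 1 + 1)).1.2 ⊆ closure (sq (n + 1)).1.2 := fun n =>
    (hcl (n + 1)).trans subset_closure
  refine ⟨⋂ n, closure (sq (n + 1)).1.2, ?_, ?_, ?_, ?_⟩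
  · exact (hco 0).of_isClosed_subset (isClosed_iInter fun n => isClosed_closure)
      (iInter_subset _ 0)
  · exact (iInter_subset _ 0).trans (hcl 0)
  · intro A hA hAc x hx y hy
    have h1 : ∀ n : ℕ, dist x y ≤ 1 / ((n : ℝ) + 1) := fun n =>
      hd n A (hA.trans ((iInter_subset _ (n + 1)).trans (hcl (n + 1)))) hAc x hx y hy
    have h2 : dist x y ≤ 0 := ge_of_tendsto' tendsto_one_div_add_atTop_nhds_zero_nat h1
    exact dist_le_zero.1 h2
  · intro p hpT
    let t : ℕ → Set V2 := fun n => closure (sq (n + 1)).1.2 ∩ {y | MvPolynomial.eval y p = 0}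
    have hz : IsClosed {y : V2 | MvPolynomial.eval y p = 0} :=
      isClosed_eq (MvPolynomial.continuous_eval p) continuous_const
    obtain ⟨y, hy⟩ := IsCompact.nonempty_iInter_of_sequence_nonempty_isCompact_isClosed t
      (fun i => inter_subset_inter_left _ (hmono i))
      (fun i => by
        obtain ⟨x, hx, hpx⟩ := hp p hpT (i + 1)
        exact ⟨x, subset_closure ((sq (i + 1)).2.2.2 hx), hpx⟩)
      ((hco 0).inter_right hz) (fun i => isClosed_closure.inter hz)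
    rw [mem_iInter] at hy
    exact ⟨y, mem_iInter.2 fun n => (hy n).1, (hy 0).2⟩

end Pool.Agent.H34.CS
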