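import Pool.Agent.H57.CS.Targets

/-!
Row CSC of the board chsn_modules: correctness of the reduction.
-/

set_option autoImplicit false
set_option linter.unusedVariables false

namespace Pool.Agent.H34.CS

open Pool.Agent.H57.CS
open Pool.Agent.H68.BP Pool.Agent.H58.SF Pool.Agent.H53.GC Pool.Agent.H53.NR
open Pool.Agent.H57.AR (tp ty Ty INJ)
open Pool.Agent.H57.SO (Bh Sbn)
open Pool.Agent.H57.LH (SS vs P0 c0 tfL)
open Pool.Agent.H57.CN (tp_comp)
open Pool.Agent.H44.KR (HB Tyi)
open Pool.Agent.H44.FB (fbI Bl)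
open Pool.Agent.H72.CH
open Function

theorem pf_CSC (hFLG : T_FLG) : T_CSC := by
  intro V N σ ρ δ 𝔸 𝔹 m lv 𝔻 st β hV hm hN hA n 𝕏
  constructor
  · rintro ⟨f, hf⟩
    obtain ⟨J, _, s, w, g, hg, hgf⟩ := hFLG V ρ 𝔹 m lv hV (Fin n) f
    obtain ⟨x, -, hxs, hxt⟩ := hN.uni J s g hg
    refine ⟨fun c => x ((w (finProdFinEquiv.symm c).1).1 (finProdFinEquiv.symm c).2), ?_⟩
    rintro l z ⟨y, hy, hz⟩
    constructor
    · intro q
      change st (x ((w (finProdFinEquiv.symm (z (finProdFinEquiv q))).1).1
        (finProdFinEquiv.symm (z (finProdFinEquiv q))).2)) = q.2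
      rw [hz q, Equiv.symm_apply_apply, hxs]
      exact (w (y q.1)).2 q.2
    · have h1 : (fun a : Fin (σ.ar l) => β (fun i : Fin m =>
          x ((w (finProdFinEquiv.symm (z (finProdFinEquiv (a, i)))).1).1
            (finProdFinEquiv.symm (z (finProdFinEquiv (a, i)))).2))) =
          fun a => β (fun i => x ((w (y a)).1 i)) := by
        funext a
        congr 1
        funext i
        rw [hz (a, i), Equiv.symm_apply_apply]
      change 𝔸 l (fun a : Fin (σ.ar l) => β (fun i : Fin m =>
          x ((w (finProdFinEquiv.symm (z (finProdFinEquiv (a, i)))).1).1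
            (finProdFinEquiv.symm (z (finProdFinEquiv (a, i)))).2)))
      rw [h1]
      refine hA l _ _ (hf l y hy) ?_
      have h2 := tp_comp hxt (fun a : Fin (σ.ar l) => w (y a))
      have h3 := tp_comp hgf y
      exact h2.trans h3
  · rintro ⟨h, hh⟩
    refine ⟨fun v => β (fun i => h (finProdFinEquiv (v, i))), ?_⟩
    intro l y hy
    have h1 := (hh l (fun c => finProdFinEquiv (y (finProdFinEquiv.symm c).1,
      (finProdFinEquiv.symm c).2)) ⟨y, hy, fun q => by
        change finProdFinEquiv (y (finProdFinEquiv.symm (finProdFinEquiv q)).1,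
          (finProdFinEquiv.symm (finProdFinEquiv q)).2) = finProdFinEquiv (y q.1, q.2)
        rw [Equiv.symm_apply_apply]⟩).2
    have h2 : (fun a : Fin (σ.ar l) => β (fun i : Fin m =>
        h (finProdFinEquiv (y (finProdFinEquiv.symm (finProdFinEquiv (a, i))).1,
          (finProdFinEquiv.symm (finProdFinEquiv (a, i))).2)))) =
        fun a => β (fun i => h (finProdFinEquiv (y a, i))) := by
      funext a
      congr 1
      funext i
      rw [Equiv.symm_apply_apply]
    have h3 : 𝔸 l (fun a : Fin (σ.ar l) => β (fun i : Fin m =>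
        h (finProdFinEquiv (y (finProdFinEquiv.symm (finProdFinEquiv (a, i))).1,
          (finProdFinEquiv.symm (finProdFinEquiv (a, i))).2)))) := h1
    rw [h2] at h3
    exact h3

end Pool.Agent.H34.CS
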