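import Mathlib
import Pool.Agent.H87.CS.Targets

set_option autoImplicit false

namespace Pool.Agent.H34.CS

open Set Topology Filter
open Pool.Agent.H87.CS (V2 T_pnt T_cell)

/-- the Euclidean version of a vector -/
noncomputable def eu (x : V2) : EuclideanSpace ℂ (Fin 2) := WithLp.toLp 2 x

theorem eu_sub (x y : V2) : eu (x - y) = eu x - eu y := rfl

theorem eu_add (x y : V2) : eu (x + y) = eu x + eu y := rfl

theorem eu_sq (x : V2) : ‖eu x‖ ^ 2 = ‖x 0‖ ^ 2 + ‖x 1‖ ^ 2 := by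
  rw [EuclideanSpace.norm_sq_eq, Fin.sum_univ_two]
  rfl

theorem eu_cont : Continuous eu := by
  unfold eu
  exact PiLp.continuous_toLp 2 _

theorem norm_le_eu (x : V2) : ‖x‖ ≤ ‖eu x‖ := by
  rw [pi_norm_le_iff_of_nonneg (norm_nonneg _)]
  intro i
  exact PiLp.norm_apply_le (eu x) i

/-- squared distance to a centre -/
noncomputable def rho (a y : V2) : ℝ := ‖y 0 - a 0‖ ^ 2 + ‖y 1 - a 1‖ ^ 2

theorem rho_eq (a y : V2) : rho a y = ‖eu (y - a)‖ ^ 2 := by
  rw [eu_sq]; rfl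

theorem rho_nonneg (a y : V2) : 0 ≤ rho a y := by
  unfold rho; positivity

theorem rho_cont (a : V2) : Continuous (rho a) := by
  unfold rho; fun_prop

/-- change of `rho` along a move of length at most `s` -/
theorem rho_move (a x y : V2) (s D : ℝ) (hs : ‖eu (y - x)‖ ≤ s) (hD : ‖eu (x - a)‖ ≤ D) :
    rho a y ≤ rho a x + 2 * s * D + s ^ 2 := by
  rw [rho_eq, rho_eq]
  have h1 : eu (y - a) = eu (y - x) + eu (x - a) := by
    rw [← eu_add]; congr 1; abel
  have h2 : ‖eu (y - a)‖ ≤ ‖eu (y - x)‖ + ‖eu (x - a)‖ := by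
    rw [h1]; exact norm_add_le _ _
  have h0 : 0 ≤ ‖eu (y - x)‖ := norm_nonneg _
  have h0' : 0 ≤ ‖eu (x - a)‖ := norm_nonneg _
  have h3 : ‖eu (y - a)‖ ^ 2 ≤ (‖eu (y - x)‖ + ‖eu (x - a)‖) ^ 2 :=
    pow_le_pow_left₀ (norm_nonneg _) h2 2
  have h4 : ‖eu (y - x)‖ * ‖eu (x - a)‖ ≤ s * D := mul_le_mul hs hD h0' (h0.trans hs)
  have h5 : ‖eu (y - x)‖ ^ 2 ≤ s ^ 2 := pow_le_pow_left₀ h0 hs 2
  nlinarith

theorem rho_move_abs (a x y : V2) (s D : ℝ) (hs : ‖eu (y - x)‖ ≤ s) (hD : ‖eu (x - a)‖ + s ≤ D) :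
    |rho a y - rho a x| ≤ 2 * s * D + s ^ 2 := by
  have hs0 : 0 ≤ s := (norm_nonneg _).trans hs
  have h1 := rho_move a x y s D hs (by linarith)
  have h2 : ‖eu (x - y)‖ ≤ s := by
    have : eu (x - y) = -eu (y - x) := by rw [eu_sub, eu_sub]; abel
    rw [this, norm_neg]; exact hs
  have h3 : ‖eu (y - a)‖ ≤ D := by
    have h1 : eu (y - a) = eu (y - x) + eu (x - a) := by
      rw [← eu_add]; congr 1; abel
    rw [h1]
    refine (norm_add_le _ _).trans ?_
    linarith
  have h4 := rho_move a y x s D h2 h3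
  rw [abs_le]
  constructor <;> linarith

theorem stage (hpnt : T_pnt) (a : V2) (h D r : ℝ) (hh : 0 < h) (hD : 0 ≤ D) (hr : 0 < r)
    (hsm : 4 * r * D + 6 * r ^ 2 ≤ h) (p : MvPolynomial (Fin 2) ℂ) (x : V2)
    (hp : MvPolynomial.eval x p = 0) (hx : ‖eu (x - a)‖ ≤ D) :
    ∃ y : V2, MvPolynomial.eval y p = 0 ∧ ‖eu (y - x)‖ ≤ 2 * r ∧
      ∃ j : ℤ, j * h + r ^ 2 ≤ rho a y ∧ rho a y ≤ (j + 1) * h - r ^ 2 := by
  have hf1 : (⌊rho a x / h⌋ : ℝ) * h ≤ rho a x := by
    rw [← le_div_iff₀ hh]; exact Int.floor_le _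
  have hf2 : rho a x < ((⌊rho a x / h⌋ : ℝ) + 1) * h := by
    rw [← div_lt_iff₀ hh]; exact Int.lt_floor_add_one _
  set j := ⌊rho a x / h⌋ with hj
  obtain ⟨y, hy1, hy2, hy3⟩ := hpnt p x (x - a) (2 * r) (by linarith) hp
  have hyx : ‖eu (y - x)‖ ^ 2 = (2 * r) ^ 2 := by
    rw [eu_sq]; exact hy2
  have hyx' : ‖eu (y - x)‖ = 2 * r :=
    (pow_left_inj₀ (norm_nonneg _) (by linarith) two_ne_zero).1 hyx
  have hup := rho_move a x y (2 * r) D hyx'.le hx
  have hlow : rho a x + (2 * r) ^ 2 ≤ rho a y := by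
    have e : ∀ u v w : ℂ, ‖u - w‖ ^ 2 = ‖v - w‖ ^ 2 + ‖u - v‖ ^ 2 +
        2 * ((u - v) * (starRingEnd ℂ) (v - w)).re := by
      intro u v w
      rw [← Complex.normSq_eq_norm_sq, ← Complex.normSq_eq_norm_sq, ← Complex.normSq_eq_norm_sq]
      simp only [Complex.normSq_apply, Complex.mul_re, Complex.sub_re, Complex.sub_im,
        Complex.conj_re, Complex.conj_im]
      ring
    unfold rho
    rw [e (y 0) (x 0) (a 0), e (y 1) (x 1) (a 1)]
    have h3 : 0 ≤ ((y 0 - x 0) * (starRingEnd ℂ) (x 0 - a 0)).re +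
        ((y 1 - x 1) * (starRingEnd ℂ) (x 1 - a 1)).re := by
      rw [← Complex.add_re]; exact hy3
    linarith
  by_cases c1 : rho a x < j * h + r ^ 2
  · refine ⟨y, hy1, hyx'.le, j, ?_, ?_⟩
    · nlinarith
    · nlinarith
  · push Not at c1
    by_cases c2 : rho a x ≤ (j + 1) * h - r ^ 2
    · exact ⟨x, hp, by rw [sub_self]; simpa [eu] using hr.le, j, c1, c2⟩
    · push Not at c2
      refine ⟨y, hy1, hyx'.le, j + 1, ?_, ?_⟩
      · push_cast
        nlinarith
      · push_cast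
        nlinarith

theorem stages (hpnt : T_pnt) (h : ℝ) (hh : 0 < h) (L : List V2) (hL : ∀ a ∈ L, ‖eu a‖ ≤ 1) :
    ∀ D T : ℝ, 0 ≤ D → 0 < T → ∃ κ : ℝ, 0 < κ ∧ ∀ (p : MvPolynomial (Fin 2) ℂ) (x : V2),
      MvPolynomial.eval x p = 0 → ‖eu x‖ ≤ D →
      ∃ y : V2, MvPolynomial.eval y p = 0 ∧ ‖eu (y - x)‖ ≤ T ∧
        ∀ a ∈ L, ∃ j : ℤ, j * h + κ ≤ rho a y ∧ rho a y ≤ (j + 1) * h - κ := by
  induction L with
  | nil =>
    intro D T _ hT
    refine ⟨1, one_pos, fun p x hp _ => ⟨x, hp, ?_, ?_⟩⟩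
    · rw [sub_self]; simpa [eu] using hT.le
    · simp
  | cons b L ih =>
    intro D T hD hT
    obtain ⟨κ, hκ, H⟩ := ih (fun a ha => hL a (List.mem_cons_of_mem _ ha)) D (T / 2) hD
      (by linarith)
    set D' := D + T + 1 with hD'
    have hD'0 : 0 < D' := by linarith
    -- choice of r
    obtain ⟨r, hr, hr1, hr2, hr3⟩ : ∃ r : ℝ, 0 < r ∧ 4 * r * D' + 6 * r ^ 2 ≤ h ∧ 2 * r ≤ T / 2 ∧
        4 * r * D' + 4 * r ^ 2 ≤ κ / 2 := by
      have hpos : 0 < min (min h (T / 2)) (κ / 2) := by positivity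
      refine ⟨min (min (min h (T / 2)) (κ / 2) / (4 * D' + 6)) 1 / 2, by positivity, ?_, ?_, ?_⟩
      all_goals
        set m := min (min h (T / 2)) (κ / 2) with hm
        set q := min (m / (4 * D' + 6)) 1 with hq
        have hq0 : 0 < q := by positivity
        have hq1 : q ≤ 1 := min_le_right _ _
        have hq2 : q * (4 * D' + 6) ≤ m := by
          rw [← le_div_iff₀ (by positivity)]
          exact min_le_left _ _
        have hmh : m ≤ h := (min_le_left _ _).trans (min_le_left _ _)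
        have hmT : m ≤ T / 2 := (min_le_left _ _).trans (min_le_right _ _)
        have hmk : m ≤ κ / 2 := min_le_right _ _
        nlinarith [mul_pos hq0 hD'0]
    refine ⟨min (κ / 2) (r ^ 2), by positivity, ?_⟩
    intro p x hp hx
    obtain ⟨y, hy1, hy2, hy3⟩ := H p x hp hx
    have hnorm : ∀ a : V2, ‖eu a‖ ≤ 1 → ‖eu (y - a)‖ + T / 2 ≤ D' := by
      intro a ha
      have e1 : eu (y - a) = eu (y - x) + eu x - eu a := by
        rw [eu_sub, eu_sub]; abel
      have e2 : ‖eu (y - a)‖ ≤ ‖eu (y - x)‖ + ‖eu x‖ + ‖eu a‖ := by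
        rw [e1]
        exact (norm_sub_le _ _).trans (add_le_add_left (norm_add_le _ _) _)
      linarith
    have hb : ‖eu (y - b)‖ ≤ D' := by
      have := hnorm b (hL b (List.mem_cons_self))
      linarith
    obtain ⟨z, hz1, hz2, j, hj1, hj2⟩ := stage hpnt b h D' r hh hD'0.le hr hr1 p y hy1 hb
    refine ⟨z, hz1, ?_, ?_⟩
    · have e1 : eu (z - x) = eu (z - y) + eu (y - x) := by
        rw [eu_sub, eu_sub, eu_sub]; abel
      rw [e1]
      refine (norm_add_le _ _).trans ?_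
      linarith
    · intro a ha
      rcases List.mem_cons.1 ha with rfl | ha'
      · refine ⟨j, ?_, ?_⟩
        · have := min_le_right (κ / 2) (r ^ 2)
          linarith
        · have := min_le_right (κ / 2) (r ^ 2)
          linarith
      · obtain ⟨i, hi1, hi2⟩ := hy3 a ha'
        have h1 := rho_move_abs a y z (2 * r) D' hz2 (by
          have := hnorm a (hL a ha)
          linarith)
        rw [abs_le] at h1
        have h2 : 2 * (2 * r) * D' + (2 * r) ^ 2 ≤ κ / 2 := by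
          have : 2 * (2 * r) * D' + (2 * r) ^ 2 = 4 * r * D' + 4 * r ^ 2 := by ring
          rw [this]; exact hr3
        refine ⟨i, ?_, ?_⟩
        · have := min_le_left (κ / 2) (r ^ 2)
          linarith
        · have := min_le_left (κ / 2) (r ^ 2)
          linarith

/-- the five centres -/
noncomputable def ctr : Fin 5 → V2 :=
  ![![0, 0], ![1, 0], ![Complex.I, 0], ![0, 1], ![0, Complex.I]]

theorem ctr_norm (k : Fin 5) : ‖eu (ctr k)‖ ≤ 1 := by
  have h : ‖eu (ctr k)‖ ^ 2 ≤ 1 := by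
    rw [eu_sq]
    fin_cases k <;> simp [ctr]
  exact (sq_le_one_iff₀ (norm_nonneg _)).1 h

theorem dist_of_rho (x y : V2) (h : ℝ) (H : ∀ k, |rho (ctr k) x - rho (ctr k) y| ≤ h) :
    dist x y ≤ 2 * h := by
  have e : ∀ u w : ℂ, ‖u - w‖ ^ 2 = (u.re - w.re) ^ 2 + (u.im - w.im) ^ 2 := by
    intro u w
    rw [← Complex.normSq_eq_norm_sq, Complex.normSq_apply, Complex.sub_re, Complex.sub_im]
    ring
  have H0 := abs_le.1 (H 0)
  have H1 := abs_le.1 (H 1)
  have H2 := abs_le.1 (H 2)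
  have H3 := abs_le.1 (H 3)
  have H4 := abs_le.1 (H 4)
  simp only [rho, e, ctr, Matrix.cons_val_zero, Matrix.cons_val_one, Matrix.cons_val,
    Complex.zero_re, Complex.zero_im, Complex.one_re, Complex.one_im, Complex.I_re,
    Complex.I_im] at H0 H1 H2 H3 H4
  have h0 : 0 ≤ h := (abs_nonneg _).trans (H 0)
  rw [dist_pi_le_iff (by linarith)]
  intro i
  rw [dist_eq_norm]
  refine (Complex.norm_le_abs_re_add_abs_im _).trans ?_
  rw [Complex.sub_re, Complex.sub_im]
  fin_cases i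
  · have a1 : |(x 0).re - (y 0).re| ≤ h := by rw [abs_le]; constructor <;> linarith
    have a2 : |(x 0).im - (y 0).im| ≤ h := by rw [abs_le]; constructor <;> linarith
    simp only [Fin.zero_eta]
    linarith
  · have a1 : |(x 1).re - (y 1).re| ≤ h := by rw [abs_le]; constructor <;> linarith
    have a2 : |(x 1).im - (y 1).im| ≤ h := by rw [abs_le]; constructor <;> linarith
    simp only [Fin.mk_one]
    linarith

theorem cell (hpnt : T_pnt) : T_cell := by
  intro Q O hQ hO hQO ε hε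
  obtain ⟨δ, hδ, hδO⟩ := hQ.exists_cthickening_subset_open hO hQO
  set N := Metric.cthickening δ Q with hN
  have hNc : IsCompact N := hQ.cthickening
  set h := ε / 2 with hh
  have hh0 : 0 < h := by positivity
  obtain ⟨D, hD⟩ := hQ.exists_bound_of_continuousOn (f := eu) eu_cont.continuousOn
  obtain ⟨κ, hκ, H⟩ := stages hpnt h hh0 (List.ofFn ctr) (by
    intro a ha
    rw [List.mem_ofFn] at ha
    obtain ⟨k, rfl⟩ := ha
    exact ctr_norm k) (max D 0) δ (le_max_right _ _) hδ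
  have hB : ∀ k, ∃ B : ℝ, ∀ y ∈ N, rho (ctr k) y ≤ B := by
    intro k
    obtain ⟨B, hB⟩ := hNc.exists_bound_of_continuousOn (f := rho (ctr k)) (rho_cont _).continuousOn
    exact ⟨B, fun y hy => (le_abs_self _).trans (hB y hy)⟩
  choose B hB using hB
  obtain ⟨M, hM⟩ : ∃ M : ℕ, ∀ k, B k / h < M := by
    obtain ⟨M, hM⟩ := exists_nat_gt (∑ k, |B k / h|)
    exact ⟨M, fun k => lt_of_le_of_lt ((le_abs_self _).trans
      (Finset.single_le_sum (f := fun k => |B k / h|) (fun _ _ => abs_nonneg _)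
        (Finset.mem_univ k))) hM⟩
  set J := Fin 5 → Fin (M + 1) with hJ
  set C : J → Set V2 := fun j => {y | y ∈ N ∧ ∀ k, ((j k : ℕ) : ℝ) * h + κ ≤ rho (ctr k) y ∧
    rho (ctr k) y ≤ (((j k : ℕ) : ℝ) + 1) * h - κ} with hC
  set E := Fintype.equivFin J with hE
  refine ⟨Fintype.card J, fun i => C (E.symm i), ?_, ?_, ?_, ?_, ?_⟩
  · intro i
    have : C (E.symm i) = N ∩ ⋂ k, {y | (((E.symm i) k : ℕ) : ℝ) * h + κ ≤ rho (ctr k) y ∧
      rho (ctr k) y ≤ ((((E.symm i) k : ℕ) : ℝ) + 1) * h - κ} := by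
      ext y
      simp [hC]
    show IsCompact (C (E.symm i))
    rw [this]
    refine hNc.inter_right (isClosed_iInter fun k => ?_)
    exact (isClosed_le continuous_const (rho_cont _)).inter
      (isClosed_le (rho_cont _) continuous_const)
  · intro i y hy
    exact hδO hy.1
  · intro i x hx y hy
    have := dist_of_rho x y h (fun k => by
      have h1 := hx.2 k
      have h2 := hy.2 k
      rw [abs_le]
      constructor <;> nlinarith)
    rw [hh] at this
    linarith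
  · intro i i' hii
    rw [Set.disjoint_left]
    intro y hy hy'
    apply hii
    apply E.symm.injective
    funext k
    have h1 := hy.2 k
    have h2 := hy'.2 k
    have key : ∀ u v : ℕ, (u : ℝ) * h + κ ≤ rho (ctr k) y → rho (ctr k) y ≤ ((v : ℝ) + 1) * h - κ →
        u ≤ v := by
      intro u v hu hv
      by_contra hc
      push Not at hc
      have : (v : ℝ) + 1 ≤ u := by exact_mod_cast hc
      nlinarith
    exact Fin.ext (le_antisymm (key _ _ h1.1 h2.2) (key _ _ h2.1 h1.2))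
  · rintro p ⟨x, hxQ, hpx⟩
    obtain ⟨y, hy1, hy2, hy3⟩ := H p x hpx ((hD x hxQ).trans (le_max_left _ _))
    have hyN : y ∈ N := by
      refine Metric.mem_cthickening_of_dist_le y x δ Q hxQ ?_
      rw [dist_eq_norm]
      exact (norm_le_eu _).trans hy2
    have hj : ∀ k : Fin 5, ∃ j : Fin (M + 1), ((j : ℕ) : ℝ) * h + κ ≤ rho (ctr k) y ∧
        rho (ctr k) y ≤ (((j : ℕ) : ℝ) + 1) * h - κ := by
      intro k
      obtain ⟨j, hj1, hj2⟩ := hy3 (ctr k) (by rw [List.mem_ofFn]; exact ⟨k, rfl⟩)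
      have h0 : 0 ≤ j := by
        by_contra hc
        push Not at hc
        have : (j : ℝ) + 1 ≤ 0 := by exact_mod_cast hc
        have := rho_nonneg (ctr k) y
        nlinarith
      have h1 : j < M + 1 := by
        have h2 : (j : ℝ) < M := by
          refine lt_of_le_of_lt ?_ (hM k)
          rw [le_div_iff₀ hh0]
          have := hB k y hyN
          linarith
        have h3 : j < M := by exact_mod_cast h2
        omega
      lift j to ℕ using h0
      have h4 : j < M + 1 := by exact_mod_cast h1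
      exact ⟨⟨j, h4⟩, by simpa using hj1, by simpa using hj2⟩
    choose j hj using hj
    refine ⟨E j, y, ?_, hy1⟩
    simp only [Equiv.symm_apply_apply]
    exact ⟨hyN, hj⟩

end Pool.Agent.H34.CS
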