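import Mathlib
import Pool.Agent.H87.CS.Targets

set_option autoImplicit false

namespace Pool.Agent.H34.CS

open Set Topology Filter MeasureTheory
open scoped ContDiff

/-- the bump of period one -/
noncomputable def hh (x : ℝ) : ℝ := Real.smoothTransition (Real.sin (2 * Real.pi * x) - 1 / 4)

theorem hh_smooth : ContDiff ℝ ∞ hh := by
  unfold hh
  exact Real.smoothTransition.contDiff.comp (by fun_prop)

theorem hh_nonneg (x : ℝ) : 0 ≤ hh x := Real.smoothTransition.nonneg _

theorem hh_per (x : ℝ) : hh (x + 1) = hh x := by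
  unfold hh
  rw [mul_add, mul_one, Real.sin_add_two_pi]

theorem hh_supp (x : ℝ) (h : hh x ≠ 0) : 1 / 4 ≤ Real.sin (2 * Real.pi * x) := by
  by_contra hc
  push Not at hc
  exact h (Real.smoothTransition.zero_of_nonpos (by linarith))

noncomputable def II : ℝ := ∫ x in (0 : ℝ)..1, hh x

theorem II_pos : 0 < II := by
  unfold II
  refine intervalIntegral.integral_pos zero_lt_one hh_smooth.continuous.continuousOn
    (fun x _ => hh_nonneg x) ⟨1 / 4, by constructor <;> norm_num, ?_⟩
  unfold hh
  have : 2 * Real.pi * (1 / 4) = Real.pi / 2 := by ring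
  rw [this, Real.sin_pi_div_two]
  exact Real.smoothTransition.pos_of_pos (by norm_num)

noncomputable def gg (x : ℝ) : ℝ := hh x / II - 1

theorem gg_smooth : ContDiff ℝ ∞ gg := by
  unfold gg
  exact (hh_smooth.div_const _).sub contDiff_const

theorem gg_per : Function.Periodic gg 1 := by
  intro x
  simp only [gg, hh_per]

theorem gg_int : ∫ x in (0 : ℝ)..1, gg x = 0 := by
  have h1 : IntervalIntegrable (fun x => hh x / II) volume 0 1 :=
    (hh_smooth.div_const II).continuous.intervalIntegrable _ _
  have h2 : IntervalIntegrable (fun _ : ℝ => (1 : ℝ)) volume 0 1 := by simp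
  have : ∫ x in (0 : ℝ)..1, gg x = (∫ x in (0 : ℝ)..1, hh x / II) - ∫ x in (0 : ℝ)..1, (1 : ℝ) := by
    rw [← intervalIntegral.integral_sub h1 h2]
    rfl
  rw [this, intervalIntegral.integral_div]
  have h3 : (∫ x in (0 : ℝ)..1, hh x) = II := rfl
  rw [h3, div_self II_pos.ne']
  simp

noncomputable def b0 (x : ℝ) : ℝ := ∫ t in (0 : ℝ)..x, gg t

theorem b0_deriv (x : ℝ) : HasDerivAt b0 (gg x) x :=
  intervalIntegral.integral_hasDerivAt_right (gg_smooth.continuous.intervalIntegrable _ _)
    gg_smooth.continuous.stronglyMeasurable.stronglyMeasurableAtFilter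
    gg_smooth.continuous.continuousAt

theorem b0_smooth : ContDiff ℝ ∞ b0 := by
  rw [contDiff_infty_iff_deriv]
  refine ⟨fun x => (b0_deriv x).differentiableAt, ?_⟩
  have : deriv b0 = gg := funext fun x => (b0_deriv x).deriv
  rw [this]
  exact gg_smooth

theorem b0_per (x : ℝ) : b0 (x + 1) = b0 x := by
  have h1 : ∀ a b, IntervalIntegrable gg volume a b := fun a b =>
    gg_smooth.continuous.intervalIntegrable _ _
  have h2 : b0 x + ∫ t in x..(x + 1), gg t = b0 (x + 1) :=
    intervalIntegral.integral_add_adjacent_intervals (h1 _ _) (h1 _ _)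
  have h3 : ∫ t in x..(x + 1), gg t = ∫ t in (0 : ℝ)..(0 + 1), gg t :=
    gg_per.intervalIntegral_add_eq x 0
  rw [zero_add] at h3
  rw [h3, gg_int] at h2
  linarith

theorem per : Pool.Agent.H87.CS.T_per := by
  have hD : ∀ x, 1 + deriv b0 x = hh x / II := by
    intro x
    rw [(b0_deriv x).deriv]
    unfold gg
    ring
  have hst : ContDiff ℝ ∞ (fun t : ℝ => Real.smoothTransition (Real.cos (Real.pi * t) + 1 / 2)) :=
    Real.smoothTransition.contDiff.comp (by fun_prop)
  refine ⟨fun j t => if j then 1 - Real.smoothTransition (Real.cos (Real.pi * t) + 1 / 2)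
      else Real.smoothTransition (Real.cos (Real.pi * t) + 1 / 2),
    fun j x => if j then b0 (x + 1 / 2) else b0 x, ?_, ?_, ?_, ?_, ?_, ?_, ?_, ?_, ?_⟩
  · intro j
    cases j
    · simpa using hst
    · simpa using (contDiff_const.sub hst)
  · intro j
    cases j
    · simpa using b0_smooth
    · have h := b0_smooth.comp (f := fun x : ℝ => x + 1 / 2) (contDiff_id.add contDiff_const)
      simp only [if_true]
      exact h
  · intro j t
    have : Real.cos (Real.pi * (t + 2)) = Real.cos (Real.pi * t) := by
      rw [mul_add, mul_comm Real.pi 2, Real.cos_add_two_pi]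
    simp only [this]
  · intro j x
    cases j
    · simpa using b0_per x
    · simp only [if_true]
      rw [show x + 1 + 1 / 2 = x + 1 / 2 + 1 by ring, b0_per]
  · intro t
    simp
  · intro t ht
    simp only [Bool.false_eq_true, if_false] at ht
    by_contra hc
    push Not at hc
    exact ht (Real.smoothTransition.zero_of_nonpos (by linarith))
  · intro t ht
    simp only [if_true] at ht
    by_contra hc
    push Not at hc
    apply ht
    rw [Real.smoothTransition.one_of_one_le (by linarith)]
    ring
  · intro x hx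
    simp only [Bool.false_eq_true, if_false] at hx
    rw [hD] at hx
    exact hh_supp x (fun h => hx (by rw [h, zero_div]))
  · intro x hx
    simp only [if_true] at hx
    rw [deriv_comp_add_const, hD] at hx
    have := hh_supp (x + 1 / 2) (fun h => hx (by rw [h, zero_div]))
    rw [show 2 * Real.pi * (x + 1 / 2) = 2 * Real.pi * x + Real.pi by ring, Real.sin_add_pi] at this
    linarith

end Pool.Agent.H34.CS
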