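import Pool.Agent.H57.CS.Targets

/-!
Row SNC of the board chsn_modules: cyclic actions on the sorts.
-/

set_option autoImplicit false
set_option linter.unusedVariables false

namespace Pool.Agent.H34.CS

open Pool.Agent.H57.CS
open Pool.Agent.H68.BP Pool.Agent.H58.SF Pool.Agent.H53.GC Pool.Agent.H53.NR
open Pool.Agent.H57.AR (tp ty Ty INJ)
open Pool.Agent.H57.SO (Bh Sbn)
open Pool.Agent.H57.LH (SS vs P0 c0 tfL vt_c0 vs_eq_iff)
open Pool.Agent.H44.KR (HB Tyi)
open Pool.Agent.H44.FB (fbI Bl)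
open Pool.Agent.H72.CH
open Function

theorem pf_SNC : T_SNC := by
  classical
  intro V N σ ρ δ 𝔸 𝔹 m lv 𝔻 st β hN p hp
  obtain ⟨x0⟩ := hN.hb.ne
  refine ⟨fun t => if ∃ s, ∀ i, t i = s then t 0 else vs 𝔻 x0, ?_, ?_⟩
  · intro W _ G
    refine ⟨fun w => if ∃ s, ∀ i, vs 𝔻 (G i w) = s then G 0 w else x0, ?_, ?_⟩
    · intro l z h
      have key : ∀ a, (∃ s, ∀ i, vs 𝔻 (G i (z a)) = s) := by
        intro a
        refine ⟨vs 𝔻 (G 0 (z a)), fun i => ?_⟩
        rw [vs_eq_iff, hN.srt]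
        have h1 := (h i).1 (finProdFinEquiv.symm a)
        have h2 := (h 0).1 (finProdFinEquiv.symm a)
        rw [Equiv.apply_symm_apply] at h1 h2
        exact h1.trans h2.symm
      have h3 : (fun a => (fun w => if ∃ s, ∀ i, vs 𝔻 (G i w) = s then G 0 w else x0) (z a)) =
          fun a => G 0 (z a) := by
        funext a
        exact if_pos (key a)
      rw [h3]
      exact h 0
    · intro w
      simp only [vt_c0]
      by_cases hw : ∃ s, ∀ i, vs 𝔻 (G i w) = s
      · rw [if_pos hw, if_pos hw]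
      · rw [if_neg hw, if_neg hw]
  · intro t
    by_cases ht : ∃ s, ∀ i, t i = s
    · obtain ⟨s, hs⟩ := ht
      have h1 : ∃ s, ∀ i, t (i + 1) = s := ⟨s, fun i => hs _⟩
      have h2 : ∃ s, ∀ i, t i = s := ⟨s, hs⟩
      simp only [if_pos h1, if_pos h2]
      rw [hs, hs]
    · have h1 : ¬ ∃ s, ∀ i, t (i + 1) = s := by
        rintro ⟨s, hs⟩
        refine ht ⟨s, fun i => ?_⟩
        have := hs (i - 1)
        rwa [sub_add_cancel] at this
      simp only [if_neg h1, if_neg ht]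

end Pool.Agent.H34.CS
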